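import Pool.Agent.helper89.Exp.Ind

set_option autoImplicit false

/-!
# The step and the base of the induction
-/

namespace Pool.Agent.helper89.Exp

open MvPolynomial Pool.Agent.helper5.NBS Pool.Agent.helper89.Segre Pool.Agent.helper22.SC

lemma bez : BezN := fun N _ _ h1 h2 h3 _ _ p hp m n h4 h5 =>
    Pool.Agent.helper7.SC.bezN N h1 h2 h3 p hp m n h4 h5

/-- a curve violating the bound -/
lemma violator {N r K j : ℕ} (hN : 0 < N) (hr : K + 16 * j = r) (hK : 5 ≤ K)
    (hrK : r ≤ 4 * (K - 1)) (hrN : 192 * N ≤ r) {z : ℝ} (hz : 0 < z)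
    {p : Fin (K + j) → Fin 2 → ℂ} (hp : VGN hN p) {F : R2} (hF : Irreducible F)
    (viol : (z + 1) * r * (wdeg N F : ℝ) ^ 2 < N * z * (∑ i, (wj K j i : ℝ) * mult (p i) F) ^ 2) :
    ∃ i0 ∈ clA K j, ∃ x : ℕ, 0 < x ∧ (∀ i ∈ clA K j, i ≠ i0 → mult (p i) F = x) ∧
      ((K : ℝ) - 1) * x < z + 1 ∧ ((K : ℝ) - 1) * (wdeg N F : ℝ) ^ 2 < N * z * (z + 1) := by
  have h := Pool.Agent.helper25.Exp.num_bound (clA K j) (wj K j) (fun i hi => if_pos (mem_clA.mp hi)) (wj_le K j) N r
    (wdeg N F) hN (by rw [sum_wj_sq, hr]) (by rw [card_clA]; exact hK)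
    (by rw [card_clA]; exact hrK) hrN (Pool.Agent.helper7.SC.wdeg_pos hN hF) z hz
    (fun i => mult (p i) F) (fun i hi => by
      have := xuN bez hp hF i hi
      simp only [pow_two]
      exact this) (fun i k hik => by
      have h := swapIneqN bez hp hF hik
      rw [mul_sub] at h
      linarith) viol
  rw [card_clA] at h
  exact h

theorem base {N r K j : ℕ} (hN : 0 < N) (hr : K + 16 * j = r) (hK : 5 ≤ K)
    (hrK : r ≤ 4 * (K - 1)) (hrN : 192 * N ≤ r) : NefW N r (wj K j) ((K : ℝ) - 2) := by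
  have hK' : (5 : ℝ) ≤ K := by exact_mod_cast hK
  refine ⟨TN hN (K + j), TN_countable hN _, TN_ne hN _, fun p hp => ?_⟩
  have hV := VGN_of hN hp
  have hz : (0 : ℝ) < (K : ℝ) - 2 := by linarith
  apply all_of_irred hN hz
  intro F hF
  by_contra hcon
  push Not at hcon
  obtain ⟨i0, _, x, hx, _, h1, _⟩ := violator hN hr hK hrK hrN hz hV hF hcon
  have hx1 : (1 : ℝ) ≤ x := by exact_mod_cast hx
  nlinarith

/-- one collision -/
theorem step {N r K j : ℕ} (hN : 0 < N) (hK0 : 0 < K) (hr : K + 16 + 16 * j = r)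
    (hrK : r + 1 ≤ 4 * (K + 16 - 1)) (hrN : 192 * N ≤ r) {z' : ℝ} (hz' : (r : ℝ) / 5 ≤ z')
    (H : NefW N r (wj K (j + 1)) z') : NefW N r (wj (K + 16) j) (5 * z') := by
  classical
  have hN' : (0 : ℝ) < N := by exact_mod_cast hN
  have hrpos : 0 < r := by omega
  have hr' : (0 : ℝ) < r := by exact_mod_cast hrpos
  have hz'0 : 0 < z' := lt_of_lt_of_le (by positivity) hz'
  obtain ⟨T', hT', hT'0, hT'p⟩ := H
  refine ⟨TN hN (K + 16 + j), TN_countable hN _, TN_ne hN _, fun p hp => ?_⟩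
  have hV := VGN_of hN hp
  have hz : (0 : ℝ) < 5 * z' := by linarith
  apply all_of_irred hN hz
  intro F hF
  by_contra hcon
  push Not at hcon
  obtain ⟨i0, hi0, x, hx, hconst, _, hbd⟩ :=
    violator hN hr (by omega) (by omega) hrN hz hV hF hcon
  -- the permuted multiplicities
  let i1 : Fin (K + 16 + j) := ⟨0, by omega⟩
  let σ : Equiv.Perm (Fin (K + 16 + j)) := Equiv.swap i0 i1
  have hi1 : i1 ∈ clA (K + 16) j := mem_clA.mpr (by simp [i1])
  have hσA : ∀ i, σ i ∈ clA (K + 16) j ↔ i ∈ clA (K + 16) j := by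
    intro i
    by_cases h1 : i = i0
    · subst h1
      simp only [σ, Equiv.swap_apply_left]
      exact iff_of_true hi1 hi0
    by_cases h2 : i = i1
    · rw [h2]
      simp only [σ, Equiv.swap_apply_right]
      exact iff_of_true hi0 hi1
    · simp only [σ, Equiv.swap_apply_of_ne_of_ne h1 h2]
  have hwσ : ∀ i, wj (K + 16) j (σ i) = wj (K + 16) j i := by
    intro i
    have h1 := hσA i
    rw [mem_clA, mem_clA] at h1
    unfold wj
    simp only [h1]
  set μ : Fin (K + 16 + j) → ℕ := fun i => mult (p i) F with hμ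
  obtain ⟨G, hG, hG0⟩ := hV.perm (self_memN N p hF.ne_zero) hF.ne_zero σ
  obtain ⟨v, hv, hv0⟩ := hV.fam hG hG0
  have hvne : v ≠ 0 := by
    rintro rfl
    apply hv0
    rw [polyOf]
    apply Finset.sum_eq_zero
    intro k _
    simp
  have hmx : ∀ i : Fin (K + 16 + j), K ≤ i.val → i.val < K + 16 → (μ ∘ σ) i = x := by
    intro i h1 h2
    apply hconst
    · rw [hσA, mem_clA]
      exact h2
    · intro h3
      have h4 : i = i1 := by
        have := congrArg σ h3
        simp only [σ, Equiv.swap_apply_left, Equiv.swap_apply_self] at this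
        exact this
      have h5 : i.val = 0 := by rw [h4]
      omega
  -- collision
  let A : Finset (Fin (K + 16 + j)) :=
    Finset.univ.filter fun i => K ≤ i.val ∧ i.val < K + 16
  have hA : A.card = 16 := by
    have : A = Finset.univ.image
        (fun a : Fin 16 => (⟨K + a.val, by omega⟩ : Fin (K + 16 + j))) := by
      ext i
      simp only [A, Finset.mem_filter, Finset.mem_univ, true_and, Finset.mem_image]
      constructor
      · rintro ⟨h1, h2⟩
        exact ⟨⟨i.val - K, by omega⟩, by ext; simp; omega⟩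
      · rintro ⟨a, rfl⟩
        have := a.isLt
        simp
    rw [this, Finset.card_image_of_injective, Finset.card_univ, Fintype.card_fin]
    intro a b hab
    simp only [Fin.mk.injEq] at hab
    ext
    omega
  obtain ⟨Q, hQ0, hQ⟩ := collide16 hN hv hvne (pim K j) A hA ⟨K, by omega⟩ (by
    intro i hi
    simp only [A, Finset.mem_filter, Finset.mem_univ, true_and] at hi
    ext
    simp only [pim]
    rw [if_neg (by omega), if_pos hi.2]) x hx (by
    intro i hi
    simp only [A, Finset.mem_filter, Finset.mem_univ, true_and] at hi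
    exact (hmx i hi.1 hi.2).ge)
  obtain ⟨q0, hq0⟩ := Pool.Agent.helper7.SC.exists_avoid (T' ∪ {Q})
    (hT'.union (Set.countable_singleton Q)) (by
      rintro f (hf | rfl)
      · exact hT'0 f hf
      · exact hQ0)
  let q : Fin (K + (j + 1)) → Fin 2 → ℂ := fun i k => q0 (i, k)
  have hqe : ∀ f : PtRing (K + (j + 1)), evP q f = eval q0 f := by
    intro f
    rfl
  obtain ⟨F', hF'0, hF'd, hF'm, hF'k⟩ := hQ q (by rw [hqe]; exact hq0 Q (Or.inr rfl))
  have hnef := hT'p q (fun f hf => by rw [hqe]; exact hq0 f (Or.inl hf)) F' hF'0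
  -- the sums
  set D : ℝ := (wdeg N F : ℝ) with hD
  have hD0 : 0 < D := by
    rw [hD]
    exact_mod_cast Pool.Agent.helper7.SC.wdeg_pos hN hF
  set S : ℝ := ∑ i, (wj (K + 16) j i : ℝ) * mult (p i) F with hS
  have hS0 : 0 ≤ S := Finset.sum_nonneg fun i _ => by positivity
  have hS' : S + 4 ≤ ∑ i, (wj K (j + 1) i : ℝ) * mult (q i) F' := by
    have e1 : S = ∑ i, (wj (K + 16) j i : ℝ) * ((μ ∘ σ) i : ℝ) := by
      rw [hS, ← Equiv.sum_comp σ]
      apply Finset.sum_congr rfl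
      intro i _
      rw [hwσ]
      rfl
    rw [e1, sum_wj (fun i => ((μ ∘ σ) i : ℝ)), sum_wj (fun i => (mult (q i) F' : ℝ)),
      Fin.sum_univ_add,
      Fin.sum_univ_succ (fun i : Fin (j + 1) => (mult (q (Fin.natAdd K i)) F' : ℝ))]
    have e2 : ∀ i : Fin K, ((μ ∘ σ) (Fin.castAdd j (Fin.castAdd 16 i)) : ℝ) ≤
        (mult (q (Fin.castAdd (j + 1) i)) F' : ℝ) := by
      intro i
      have h1 := hF'm (Fin.castAdd j (Fin.castAdd 16 i))
      have h2 : pim K j (Fin.castAdd j (Fin.castAdd 16 i)) = Fin.castAdd (j + 1) i := by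
        ext
        simp [pim]
      rw [h2] at h1
      exact_mod_cast h1
    have e3 : ∀ i : Fin 16, ((μ ∘ σ) (Fin.castAdd j (Fin.natAdd K i)) : ℝ) = x := by
      intro i
      rw [hmx _ (by simp) (by simp)]
    have e4 : ∀ i : Fin j, ((μ ∘ σ) (Fin.natAdd (K + 16) i) : ℝ) ≤
        (mult (q (Fin.natAdd K i.succ)) F' : ℝ) := by
      intro i
      have h1 := hF'm (Fin.natAdd (K + 16) i)
      have h2 : pim K j (Fin.natAdd (K + 16) i) = Fin.natAdd K i.succ := by
        ext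
        simp only [pim, Fin.val_natAdd, Fin.val_succ]
        rw [if_neg (by omega), if_neg (by omega)]
        omega
      rw [h2] at h1
      exact_mod_cast h1
    have e5 : (4 * (x : ℝ) + 1) ≤ (mult (q (Fin.natAdd K (0 : Fin (j + 1)))) F' : ℝ) := by
      have h2 : (⟨K, by omega⟩ : Fin (K + (j + 1))) = Fin.natAdd K (0 : Fin (j + 1)) := by
        ext
        simp
      rw [h2] at hF'k
      exact_mod_cast hF'k
    have e6 := Finset.sum_le_sum (fun i (_ : i ∈ (Finset.univ : Finset (Fin K))) => e2 i)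
    have e7 := Finset.sum_le_sum (fun i (_ : i ∈ (Finset.univ : Finset (Fin j))) => e4 i)
    have e8 : ∑ i : Fin 16, ((μ ∘ σ) (Fin.castAdd j (Fin.natAdd K i)) : ℝ) = 16 * x := by
      rw [Finset.sum_congr rfl fun i _ => e3 i]
      simp
    rw [e8]
    linarith
  have hcoll : N * z' * (S + 4) ^ 2 ≤ (z' + 1) * r * D ^ 2 := by
    have e1 : (S + 4) ^ 2 ≤ (∑ i, (wj K (j + 1) i : ℝ) * mult (q i) F') ^ 2 :=
      pow_le_pow_left₀ (by linarith) hS' 2
    have e2 : (wdeg N F' : ℝ) ^ 2 ≤ D ^ 2 :=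
      pow_le_pow_left₀ (by positivity) (by rw [hD]; exact_mod_cast hF'd) 2
    calc N * z' * (S + 4) ^ 2
        ≤ N * z' * (∑ i, (wj K (j + 1) i : ℝ) * mult (q i) F') ^ 2 :=
          mul_le_mul_of_nonneg_left e1 (by positivity)
      _ ≤ (z' + 1) * r * (wdeg N F' : ℝ) ^ 2 := hnef
      _ ≤ (z' + 1) * r * D ^ 2 := mul_le_mul_of_nonneg_left e2 (by positivity)
  have hKr : (r : ℝ) + 1 ≤ 4 * (((K + 16 : ℕ) : ℝ) - 1) := by
    have : ((r + 1 : ℕ) : ℝ) ≤ ((4 * (K + 16 - 1) : ℕ) : ℝ) := by exact_mod_cast hrK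
    rw [Nat.cast_mul, Nat.cast_sub (by omega)] at this
    push_cast at this ⊢
    linarith
  refine num_step (K := K + 16) hN (by omega) hz'0 (by linarith) hS0 hD0 hcon hcoll hbd ?_
  have e1 : (5 * z' + 1) * r ≤ 20 * (((K + 16 : ℕ) : ℝ) - 1) * z' := by
    have e2 : (r : ℝ) ≤ 5 * z' := by linarith
    nlinarith
  have e3 : (5 * z' + 1) * (5 * z' - z') ^ 2 * r = 16 * z' ^ 2 * ((5 * z' + 1) * r) := by ring
  have e4 : 64 * (((K + 16 : ℕ) : ℝ) - 1) * z' ^ 2 * (5 * z') =
      16 * z' ^ 2 * (20 * (((K + 16 : ℕ) : ℝ) - 1) * z') := by ring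
  rw [e3, e4]
  exact mul_le_mul_of_nonneg_left e1 (by positivity)

end Pool.Agent.helper89.Exp
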