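import Pool.Agent.helper89.Exp.Final
import Pool.Agent.helper73.Nag.Main

set_option autoImplicit false

/-!
# The plane, in homogeneous coordinates
-/

namespace Pool.Agent.helper89.Exp

open MvPolynomial Pool.Agent.helper5.NBS Pool.Agent.helper89.Segre Pool.Agent.helper73.Nag

/-- Plane curves of degree `d` with multiplicities at least `m i` at `r ≥ 192` very general
points. -/
theorem plane_exp (r : ℕ) (hr : 192 ≤ r) :
    ∃ T : Set (MvPolynomial (Fin r × Fin 3) ℂ), T.Countable ∧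
    (∀ Q ∈ T, Q ≠ 0) ∧ ∀ p : Fin r → Fin 3 → ℂ,
      (∀ Q ∈ T, eval (fun ij : Fin r × Fin 3 => p ij.1 ij.2) Q ≠ 0) →
      ∀ (d : ℕ) (m : Fin r → ℕ) (f : MvPolynomial (Fin 3) ℂ), f ≠ 0 → f ∈ sys d r m p →
        (∑ i, (m i : ℝ)) ^ 2 ≤ (1 + Real.exp (-(3 * r / 40))) * r * (d : ℝ) ^ 2 := by
  classical
  obtain ⟨T0, hT0, hT00, hT0p⟩ := weighted_exp 1 r one_pos (by omega)
  choose Nh hat hhat using exists_hat r
  refine ⟨(Set.range fun i : Fin r => X (i, 2)) ∪ hat '' T0,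
    (Set.countable_range _).union (hT0.image _), ?_, ?_⟩
  · rintro Q (⟨i, rfl⟩ | ⟨q, hq, rfl⟩)
    · exact X_ne_zero _
    · exact hat_ne (hT00 q hq) (hhat q)
  · intro p hp d m f hf0 hf
    have hp2 : ∀ k, p k 2 ≠ 0 := by
      intro k
      have := hp _ (Or.inl ⟨k, rfl⟩)
      simpa using this
    have hq : ∀ Q ∈ T0, evP (fun k => aff (p k)) Q ≠ 0 := by
      intro Q hQ
      have h1 := hp _ (Or.inr ⟨Q, hQ, rfl⟩)
      rw [hhat Q p hp2] at h1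
      exact right_ne_zero_of_mul h1
    obtain ⟨G, hG, hG0⟩ := exists_lin hp2 hf hf0
    have h1 := (hT0p _ hq).2 G hG0
    have h2 : ∑ i, (m i : ℝ) ≤ (smult (fun k => aff (p k)) G : ℝ) := by
      rw [smult]
      push_cast
      apply Finset.sum_le_sum
      intro i _
      exact_mod_cast (mem_pow_iff_le_mult hG0).mp (hG.2 i)
    have h3 : (wdeg 1 G : ℝ) ≤ d := by exact_mod_cast hG.1
    have h4 : 0 ≤ ∑ i, (m i : ℝ) := Finset.sum_nonneg (fun i _ => by positivity)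
    have h5 : (∑ i, (m i : ℝ)) ^ 2 ≤ (smult (fun k => aff (p k)) G : ℝ) ^ 2 :=
      pow_le_pow_left₀ h4 h2 2
    have h6 : (wdeg 1 G : ℝ) ^ 2 ≤ (d : ℝ) ^ 2 := pow_le_pow_left₀ (by positivity) h3 2
    have h7 : (0 : ℝ) ≤ (1 + Real.exp (-(3 * r / 40))) * r := by positivity
    have h8 := mul_le_mul_of_nonneg_left h6 h7
    rw [Nat.cast_one, one_mul] at h1
    linarith

/-- integrality: the exact inequality in an exponentially large range -/
lemma exact_range {N r S e : ℕ} {ε : ℝ} (hε : 0 < ε)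
    (h : (N : ℝ) * (S : ℝ) ^ 2 ≤ (1 + ε) * r * (e : ℝ) ^ 2)
    (hS : ε * ((N : ℝ) * (S : ℝ) ^ 2) ≤ 1) : N * S ^ 2 ≤ r * e ^ 2 := by
  by_contra hcon
  push Not at hcon
  have h1 : ((r * e ^ 2 + 1 : ℕ) : ℝ) ≤ ((N * S ^ 2 : ℕ) : ℝ) := by exact_mod_cast hcon
  push_cast at h1
  have h2 : (r : ℝ) * (e : ℝ) ^ 2 + 1 ≤ (r : ℝ) * (e : ℝ) ^ 2 + ε * (r * (e : ℝ) ^ 2) := by
    linarith
  have h3 : ε * ((r : ℝ) * (e : ℝ) ^ 2) < ε * ((N : ℝ) * (S : ℝ) ^ 2) :=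
    mul_lt_mul_of_pos_left (by linarith) hε
  linarith

/-- the exact inequality in an exponentially large range -/
lemma exact_of_exp {N r : ℕ} {S k : ℕ}
    (h : (N : ℝ) * (S : ℝ) ^ 2 ≤ (1 + Real.exp (-(3 * r / 40))) * r * (k : ℝ) ^ 2)
    (hS : (N : ℝ) * (S : ℝ) ^ 2 ≤ Real.exp (3 * r / 40)) :
    (N : ℝ) * (S : ℝ) ^ 2 ≤ r * (k : ℝ) ^ 2 := by
  have h1 := exact_range (Real.exp_pos _) h (by
    rw [Real.exp_neg]
    have h2 := Real.exp_pos (3 * (r : ℝ) / 40)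
    rw [inv_mul_le_iff₀ h2, mul_one]
    exact hS)
  exact_mod_cast h1

end Pool.Agent.helper89.Exp
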