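import Pool.Agent.helper7.SC.Final
import Pool.Agent.helper41.Nag16.Good16
import Pool.Agent.helper15.NAG.Coll
import Pool.Agent.helper25.Exp.C

set_option autoImplicit false

/-!
# Sixteen points collide into one point
-/

namespace Pool.Agent.helper89.Exp

open MvPolynomial Pool.Agent.helper5.NBS Pool.Agent.helper89.Segre Pool.Agent.helper22.SC

/-- Nagata's theorem for 16 points, in terms of plane polynomials -/
theorem nag16 (m : ℕ) (hm : 0 < m) : ∃ Q : PtRing 16, Q ≠ 0 ∧ ∀ u : Fin 16 → Fin 2 → ℂ, evP u Q ≠ 0 →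
    ∀ g : R2, g.totalDegree ≤ 4 * m → (∀ i, g ∈ ptIdeal (u i) ^ m) → g = 0 := by
  classical
  have hg := Pool.Agent.helper41.Nag16.good16 m hm
  have h1 : (Finset.univ.val.map fun _ : Fin 16 => m) = Multiset.replicate 16 m := by
    rw [Multiset.map_const']
    rfl
  rw [← h1] at hg
  obtain ⟨Q, hQ0, hQ⟩ := Pool.Agent.helper7.SC.generic_of_good' (m := fun _ : Fin 16 => m) hg
  refine ⟨Q, hQ0, fun u hu g hgd hgm => hQ u hu g ?_ hgm⟩
  intro n hn
  rw [Finset.mem_image]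
  refine ⟨(n 0, n 1), ?_, Pool.Agent.helper73.Nag.e2_eq n⟩
  rw [mem_tri]
  have h2 := le_totalDegree hn
  have h3 : (n.sum fun _ e => e) = n 0 + n 1 := by
    rw [Finsupp.sum_fintype _ _ (fun _ => rfl), Fin.sum_univ_two]
  simp only
  omega

lemma totalDegree_trans_le (p : Fin 2 → ℂ) (F : R2) : (trans p F).totalDegree ≤ F.totalDegree := by
  have h1 : trans p F = aeval (fun j : Fin 2 => (X j + C (p j) : R2)) F := rfl
  rw [h1, aeval_def, eval₂_eq]
  apply totalDegree_finsetSum_le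
  intro n hn
  refine (totalDegree_mul _ _).trans ?_
  rw [algebraMap_eq, totalDegree_C, zero_add]
  refine (totalDegree_finsetProd _ _).trans ?_
  have h2 : ∀ i ∈ n.support, ((X i + C (p i) : R2) ^ n i).totalDegree ≤ n i := by
    intro i _
    refine (totalDegree_pow _ _).trans ?_
    have h3 : (X i + C (p i) : R2).totalDegree ≤ 1 := by
      refine (totalDegree_add _ _).trans ?_
      rw [totalDegree_X, totalDegree_C]
      simp
    calc n i * _ ≤ n i * 1 := Nat.mul_le_mul_left _ h3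
      _ = n i := mul_one _
  exact (Finset.sum_le_sum h2).trans (le_totalDegree hn)

lemma mult_le_totalDegree (p : Fin 2 → ℂ) {F : R2} (hF : F ≠ 0) : mult p F ≤ F.totalDegree := by
  have h1 := mem_ptIdeal_pow.mp ((mem_pow_iff_le_mult (p := p) hF).mpr le_rfl)
  have h2 : trans p F ≠ 0 := fun h => hF ((trans p).map_eq_zero_iff.mp h)
  obtain ⟨n, hn⟩ := support_nonempty.mpr h2
  by_contra hcon
  push Not at hcon
  have h3 := le_totalDegree hn
  have h4 := totalDegree_trans_le p F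
  have h5 : (n.sum fun _ e => e) = n.degree := by
    rw [Finsupp.degree_eq_sum, Finsupp.sum_fintype _ _ (fun _ => rfl)]
  rw [mem_support_iff] at hn
  exact hn (h1 n (by omega))

/-- Sixteen points of multiplicity at least `x` collide into one point. -/
theorem collide16 {N : ℕ} (hN : 0 < N) {d h h' : ℕ} {m : Fin h → ℕ} {v : ExN N d → PtRing h}
    (hv : IsFamN m v) (hv0 : v ≠ 0) (π : Fin h → Fin h') (A : Finset (Fin h)) (hA : A.card = 16)
    (k0 : Fin h') (hAk : ∀ i ∈ A, π i = k0) (x : ℕ) (hx0 : 0 < x) (hx : ∀ i ∈ A, x ≤ m i) :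
    ∃ Q : PtRing h', Q ≠ 0 ∧ ∀ q : Fin h' → Fin 2 → ℂ, evP q Q ≠ 0 → ∃ F : R2, F ≠ 0 ∧
      wdeg N F ≤ d ∧ (∀ i, m i ≤ mult (q (π i)) F) ∧ 4 * x + 1 ≤ mult (q k0) F := by
  classical
  obtain ⟨k, hk⟩ := Function.ne_iff.mp hv0
  obtain ⟨Q16, hQ0, hQ⟩ := nag16 x hx0
  let e : Fin 16 ≃ A := (Finset.equivFinOfCardEq hA).symm
  let ι : Fin 16 × Fin 2 → Fin h × Fin 2 := fun a => ((e a.1 : Fin h), a.2)
  have hι : Function.Injective ι := by
    rintro ⟨a, b⟩ ⟨a', b'⟩ hab
    simp only [ι, Prod.mk.injEq] at hab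
    have h1 : e a = e a' := Subtype.ext hab.1
    rw [e.injective h1, hab.2]
  have hprod : v k * rename ι Q16 ≠ 0 := by
    refine mul_ne_zero hk ?_
    intro h0
    exact hQ0 (rename_injective ι hι (by rw [h0, map_zero]))
  obtain ⟨u, hu⟩ : ∃ u : Fin h → Fin 2 → ℂ, evP u (v k * rename ι Q16) ≠ 0 := by
    by_contra hcon
    push Not at hcon
    exact hprod (Pool.Agent.helper73.Nag.evP_eq_zero hcon)
  rw [map_mul, mul_ne_zero_iff] at hu
  have hu2 : evP (fun a : Fin 16 => u (e a)) Q16 ≠ 0 := by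
    have h1 : evP u (rename ι Q16) = evP (fun a : Fin 16 => u (e a)) Q16 := by
      rw [evP, evP, eval_rename]
      rfl
    rw [← h1]
    exact hu.2
  obtain ⟨Q, hQ0', hq⟩ := Pool.Agent.helper15.Coll.collide_fam hN hv π u ⟨k, hu.1⟩
  refine ⟨Q, hQ0', fun q hqQ => ?_⟩
  obtain ⟨F, hF0, hFd, hF⟩ := hq q hqQ
  refine ⟨F, hF0, hFd, fun i => ?_, ?_⟩
  · obtain ⟨g, hg0, hg1, hg2⟩ := hF (π i)
    have h1 := (mem_pow_iff_le_mult hg0).mp (hg2 i rfl)
    exact h1.trans ((mult_le_totalDegree (u i) hg0).trans hg1)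
  · obtain ⟨g, hg0, hg1, hg2⟩ := hF k0
    by_contra hcon
    push Not at hcon
    apply hg0
    apply hQ (fun a : Fin 16 => u (e a)) hu2 g (by omega)
    intro a
    have h1 := hg2 (e a) (hAk _ (e a).2)
    exact Ideal.pow_le_pow_right (hx _ (e a).2) h1

end Pool.Agent.helper89.Exp
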