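import Pool.Agent.helper89.Exp.Step
import Pool.Agent.helper7.SC.Poly

set_option autoImplicit false

/-!
# The exponential bound on the weighted plane and on all polarised surfaces
-/

namespace Pool.Agent.helper89.Exp

open MvPolynomial Pool.Agent.helper5.NBS Pool.Agent.helper89.Segre Pool.Agent.helper22.SC
  Pool.Agent.helper7.SC

/-- all collisions -/
theorem ind {N r : ℕ} (hN : 0 < N) (hrN : 192 * N ≤ r) (J : ℕ) (hJ : 64 * J + 5 ≤ 3 * r) :
    ∀ i K j, K + 16 * j = r → j + i = J →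
      NefW N r (wj K j) (5 ^ i * (((r - 16 * J : ℕ) : ℝ) - 2)) := by
  have h0 : r + 5 ≤ 4 * (r - 16 * J) := by omega
  have h1 : ((r + 5 : ℕ) : ℝ) ≤ ((4 * (r - 16 * J) : ℕ) : ℝ) := by exact_mod_cast h0
  rw [Nat.cast_mul] at h1
  push_cast at h1
  have h2 : (192 : ℝ) ≤ r := by
    have : 192 ≤ r := by omega
    exact_mod_cast this
  intro i
  induction i with
  | zero =>
    intro K j hK hj
    have hKJ : r - 16 * J = K := by omega
    rw [pow_zero, one_mul, hKJ]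
    exact base hN hK (by omega) (by omega) hrN
  | succ i ih =>
    intro K j hK hj
    obtain ⟨K', rfl⟩ : ∃ K', K = K' + 16 := ⟨K - 16, by omega⟩
    have h3 := ih K' (j + 1) (by omega) (by omega)
    have h4 := step hN (by omega) hK (by omega) hrN (z' := 5 ^ i * (((r - 16 * J : ℕ) : ℝ) - 2))
      (by
        have h5 : (1 : ℝ) ≤ 5 ^ i := one_le_pow₀ (by norm_num)
        have h6 : (r : ℝ) / 5 ≤ ((r - 16 * J : ℕ) : ℝ) - 2 := by linarith
        have h7 : (0 : ℝ) ≤ ((r - 16 * J : ℕ) : ℝ) - 2 := by linarith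
        nlinarith) h3
    have h8 : (5 : ℝ) ^ (i + 1) * (((r - 16 * J : ℕ) : ℝ) - 2) =
        5 * (5 ^ i * (((r - 16 * J : ℕ) : ℝ) - 2)) := by ring
    rw [h8]
    exact h4

lemma exp_lt_five : Real.exp (8 / 5) < 5 := by
  have h1 : Real.exp (8 / 5) ^ 5 = Real.exp 1 ^ 8 := by
    rw [← Real.exp_nat_mul, ← Real.exp_nat_mul]
    norm_num
  have h2 : Real.exp 1 ^ 8 < 2.7182818286 ^ 8 :=
    pow_lt_pow_left₀ Real.exp_one_lt_d9 (Real.exp_pos _).le (by norm_num)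
  have h3 : (2.7182818286 : ℝ) ^ 8 < 5 ^ 5 := by norm_num
  have h4 : Real.exp (8 / 5) ^ 5 < 5 ^ 5 := by
    rw [h1]
    exact h2.trans h3
  exact lt_of_pow_lt_pow_left₀ 5 (by norm_num) h4

lemma exp_le (r J : ℕ) (hr : 192 ≤ r) (hJ : 64 * J + 5 ≤ 3 * r) (hJ' : 3 * r ≤ 64 * J + 68) :
    Real.exp (3 * r / 40) ≤ 5 ^ J * (((r - 16 * J : ℕ) : ℝ) - 2) := by
  have h0 : r + 5 ≤ 4 * (r - 16 * J) := by omega
  have h1 : ((r + 5 : ℕ) : ℝ) ≤ ((4 * (r - 16 * J) : ℕ) : ℝ) := by exact_mod_cast h0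
  rw [Nat.cast_mul] at h1
  push_cast at h1
  have h2 : (192 : ℝ) ≤ r := by exact_mod_cast hr
  have h3 : (25 : ℝ) ≤ ((r - 16 * J : ℕ) : ℝ) - 2 := by linarith
  have h4 : Real.exp (8 / 5) ^ J ≤ 5 ^ J :=
    pow_le_pow_left₀ (Real.exp_pos _).le exp_lt_five.le J
  have h5 : Real.exp (8 / 5) ^ 2 ≤ 5 ^ 2 :=
    pow_le_pow_left₀ (Real.exp_pos _).le exp_lt_five.le 2
  have h6 : Real.exp (3 * r / 40) ≤ Real.exp (8 / 5) ^ J * Real.exp (8 / 5) ^ 2 := by
    rw [← pow_add, ← Real.exp_nat_mul, Real.exp_le_exp]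
    have : (3 * r : ℝ) ≤ 64 * J + 68 := by exact_mod_cast hJ'
    push_cast
    linarith
  calc Real.exp (3 * r / 40) ≤ Real.exp (8 / 5) ^ J * Real.exp (8 / 5) ^ 2 := h6
    _ ≤ 5 ^ J * 5 ^ 2 := mul_le_mul h4 h5 (by positivity) (by positivity)
    _ ≤ 5 ^ J * (((r - 16 * J : ℕ) : ℝ) - 2) := by
      apply mul_le_mul_of_nonneg_left _ (by positivity)
      linarith

/-- the bound on the weighted plane `ℙ(1,1,N)` at `r` very general points -/
theorem weighted_exp (N r : ℕ) (hN : 0 < N) (hr : 192 * N ≤ r) :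
    ∃ T : Set (PtRing r), T.Countable ∧ (∀ Q ∈ T, Q ≠ 0) ∧ ∀ q : Fin r → Fin 2 → ℂ,
      (∀ Q ∈ T, evP q Q ≠ 0) → Function.Injective q ∧ ∀ F : R2, F ≠ 0 →
        N * (smult q F : ℝ) ^ 2 ≤ (1 + Real.exp (-(3 * r / 40))) * r * (wdeg N F : ℝ) ^ 2 := by
  have hr192 : 192 ≤ r := by omega
  have h := ind hN hr ((3 * r - 5) / 64) (by omega) ((3 * r - 5) / 64) r 0 (by omega) (by omega)
  have hz := exp_le r ((3 * r - 5) / 64) hr192 (by omega) (by omega)
  set z : ℝ := 5 ^ ((3 * r - 5) / 64) * (((r - 16 * ((3 * r - 5) / 64) : ℕ) : ℝ) - 2) with hzdef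
  have hz0 : 0 < z := lt_of_lt_of_le (Real.exp_pos _) hz
  obtain ⟨T, hT, hT0, hTp⟩ := h
  refine ⟨T ∪ TN hN r, hT.union (TN_countable hN r), ?_, ?_⟩
  · rintro Q (hQ | hQ)
    · exact hT0 Q hQ
    · exact TN_ne hN r Q hQ
  · intro q hq
    refine ⟨(VGN_of hN (fun Q hQ => hq Q (Or.inr hQ))).inj, fun F hF => ?_⟩
    have h1 := hTp q (fun Q hQ => hq Q (Or.inl hQ)) F hF
    have h2 : ∑ i, (wj r 0 i : ℝ) * mult (q i) F = (smult q F : ℝ) := by
      rw [smult]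
      push_cast
      apply Finset.sum_congr rfl
      intro i _
      have : wj r 0 i = 1 := if_pos (by have := i.isLt; omega)
      rw [this]
      push_cast
      ring
    rw [h2] at h1
    have h3 : Real.exp (-(3 * r / 40)) = 1 / Real.exp (3 * r / 40) := by
      rw [Real.exp_neg, one_div]
    have h4 : 1 / z ≤ Real.exp (-(3 * r / 40)) := by
      rw [h3]
      exact one_div_le_one_div_of_le (Real.exp_pos _) hz
    have h5 : N * (smult q F : ℝ) ^ 2 ≤ (1 + 1 / z) * r * (wdeg N F : ℝ) ^ 2 := by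
      have h6 : (1 + 1 / z) * r * (wdeg N F : ℝ) ^ 2 = (z + 1) * r * (wdeg N F : ℝ) ^ 2 / z := by
        field_simp
      rw [h6, le_div_iff₀ hz0]
      linarith
    refine h5.trans ?_
    apply mul_le_mul_of_nonneg_right _ (by positivity)
    apply mul_le_mul_of_nonneg_right _ (by positivity)
    linarith


/-- the comparison theorem, applied to a bound on the weighted plane -/
theorem main_of {R : Type} [CommRing R] [IsDomain R] [Algebra ℂ R] {n : ℕ} {x : Fin n → R}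
    {N : ℕ} (hN : 0 < N) {h v : R} {ε : R →ₐ[ℂ] ℂ} (S : Surf x N h v ε) {r : ℕ} {B : ℝ}
    (hB : 1 ≤ B) (hr : 0 < r)
    (hw : ∃ T : Set (PtRing r), T.Countable ∧ (∀ Q ∈ T, Q ≠ 0) ∧ ∀ q : Fin r → Fin 2 → ℂ,
      (∀ Q ∈ T, evP q Q ≠ 0) → Function.Injective q ∧ ∀ F : R2, F ≠ 0 →
        N * (smult q F : ℝ) ^ 2 ≤ B * r * (wdeg N F : ℝ) ^ 2) :
    ∃ T : Set (MvPolynomial (Fin r × Fin n) ℂ), T.Countable ∧
      (∀ g ∈ T, ∃ p : Fin r → Fin n → ℂ, (∀ i, OnU x (p i)) ∧ eval (fun il => p il.1 il.2) g ≠ 0) ∧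
      ∀ p : Fin r → Fin n → ℂ, (∀ i, OnU x (p i)) →
        (∀ g ∈ T, eval (fun il => p il.1 il.2) g ≠ 0) →
        ∀ P : Ideal R, P.IsPrime → ¬ P.IsMaximal → ∀ μ : Fin r → ℕ,
          (∀ i, P ≤ mp x (p i) ^ μ i) → ∀ e c : ℝ, (∀ s, (hilb x P s : ℝ) ≤ e * s + c) →
            N * (∑ i, (μ i : ℝ)) ^ 2 ≤ B * r * e ^ 2 := by
  have hN' : (0 : ℝ) < N := by exact_mod_cast hN
  have hr' : (0 : ℝ) < r := by exact_mod_cast hr
  have hB0 : 0 < B := by linarith
  set A : ℝ := N / (B * r) with hAdef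
  have hA0 : 0 < A := by positivity
  obtain ⟨T0, hT0, hT0', hq⟩ := hw
  obtain ⟨T, h1, h2, h3⟩ := comparison hN S T0 hT0 hT0' (fun q hq' => (hq q hq').1) (√A)
    (Real.sqrt_pos.mpr hA0) (by
      rw [Real.sq_sqrt hA0.le, hAdef]
      have : (r : ℝ) * (N / (B * r)) = N / B := by
        field_simp
      rw [this]
      exact div_le_self hN'.le hB) (by
      intro q hq' F hF
      have h5 := (hq q hq').2 F hF.ne_zero
      have h6 : (√A * smult q F) ^ 2 ≤ (wdeg N F : ℝ) ^ 2 := by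
        rw [mul_pow, Real.sq_sqrt hA0.le, hAdef, div_mul_eq_mul_div, div_le_iff₀ (by positivity)]
        linarith
      exact le_of_sq_le_sq h6 (by positivity))
  refine ⟨T, h1, h2, fun p hp hT P hP hPm μ hμ e c hh => ?_⟩
  have h5 := h3 p hp hT P hP hPm μ hμ e c hh
  have h6 : 0 ≤ √A * ∑ i, (μ i : ℝ) :=
    mul_nonneg (Real.sqrt_nonneg _) (Finset.sum_nonneg fun i _ => by positivity)
  have h7 : (√A * ∑ i, (μ i : ℝ)) ^ 2 ≤ e ^ 2 := pow_le_pow_left₀ h6 h5 2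
  rw [mul_pow, Real.sq_sqrt hA0.le, hAdef, div_mul_eq_mul_div, div_le_iff₀ (by positivity)] at h7
  linarith

/-- **Main theorem.** -/
theorem main_poly_of {n N r : ℕ} {B : ℝ} (hB : 1 ≤ B) (hr : 0 < r)
    (hw : ∃ T : Set (PtRing r), T.Countable ∧ (∀ Q ∈ T, Q ≠ 0) ∧ ∀ q : Fin r → Fin 2 → ℂ,
      (∀ Q ∈ T, evP q Q ≠ 0) → Function.Injective q ∧ ∀ F : R2, F ≠ 0 →
        N * (smult q F : ℝ) ^ 2 ≤ B * r * (wdeg N F : ℝ) ^ 2) {I : Ideal (MvPolynomial (Fin n) ℂ)}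
    {h v : MvPolynomial (Fin n) ℂ} {z : Fin n → ℂ} (hN : 0 < N)
    (S : IsSurface I N h v z) :
    ∃ T : Set (MvPolynomial (Fin r × Fin n) ℂ), T.Countable ∧
      (∀ g ∈ T, ∃ p : Fin r → Fin n → ℂ, (∀ i, I ≤ ptId (p i)) ∧
        eval (fun il => p il.1 il.2) g ≠ 0) ∧
      ∀ p : Fin r → Fin n → ℂ, (∀ i, I ≤ ptId (p i)) →
        (∀ g ∈ T, eval (fun il => p il.1 il.2) g ≠ 0) →
        ∀ P : Ideal (MvPolynomial (Fin n) ℂ), P.IsPrime → ¬ P.IsMaximal → I ≤ P →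
          ∀ μ : Fin r → ℕ, (∀ i, P ≤ I ⊔ ptId (p i) ^ μ i) →
          ∀ e c : ℝ, (∀ s, (hf P s : ℝ) ≤ e * s + c) →
            N * (∑ i, (μ i : ℝ)) ^ 2 ≤ B * r * e ^ 2 := by
  have hI := S.prime
  have hgen : Algebra.adjoin ℂ (Set.range (xx I)) = ⊤ := by
    rw [Algebra.adjoin_range_eq_range_aeval, aeval_xx', AlgHom.range_eq_top]
    exact Ideal.Quotient.mkₐ_surjective ℂ I
  let ε : (MvPolynomial (Fin n) ℂ ⧸ I) →ₐ[ℂ] ℂ := Ideal.Quotient.liftₐ I (aeval z) (fun f hf => by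
    have := S.mem_z hf
    rw [aeval_eq_eval]
    exact this)
  have hε : ∀ f, ε (Ideal.Quotient.mk I f) = eval z f := fun f => by
    have : ε (Ideal.Quotient.mk I f) = aeval z f := Ideal.Quotient.liftₐ_apply _ _ _ _
    rw [this, aeval_eq_eval]
  have hker : RingHom.ker ε = (ptId z).map (Ideal.Quotient.mk I) := by
    apply le_antisymm
    · intro F hF
      obtain ⟨f, rfl⟩ := Ideal.Quotient.mk_surjective F
      have h1 : ε (Ideal.Quotient.mk I f) = 0 := hF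
      rw [hε] at h1
      exact Ideal.mem_map_of_mem _ h1
    · rw [Ideal.map_le_iff_le_comap]
      intro f hf
      show ε (Ideal.Quotient.mk I f) = 0
      rw [hε]
      exact hf
  have hmem : ∀ f ∈ ({h, v} : Set (MvPolynomial (Fin n) ℂ)), f ∈ ptId z := by
    intro f hf
    have h1 : Ideal.span {h, v} ≤ ptId z := by
      conv_rhs => rw [S.coord]
      exact le_sup_of_le_left le_sup_right
    exact h1 (Ideal.subset_span hf)
  have Sf : Surf (xx I) N (Ideal.Quotient.mk I h) (Ideal.Quotient.mk I v) ε := by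
    refine ⟨hgen, ?_, ?_, ?_, ?_, ?_, ?_, ?_, ?_⟩
    · obtain ⟨c, hc⟩ := S.growth
      refine ⟨⌈2 * c⌉, fun s => ?_⟩
      have h1 := hc s
      rw [hf, ← W_xx] at h1
      have h2 : |(2 * (Module.finrank ℂ (W (xx I) s) : ℝ) - N * (s : ℝ) ^ 2)| ≤
          ((⌈2 * c⌉ : ℤ) : ℝ) * (s + 1) := by
        have h3 : 2 * (Module.finrank ℂ (W (xx I) s) : ℝ) - N * (s : ℝ) ^ 2 =
            2 * ((Module.finrank ℂ (W (xx I) s) : ℝ) - N * (s : ℝ) ^ 2 / 2) := by ring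
        rw [h3, abs_mul, abs_two]
        have h4 : 2 * c ≤ ((⌈2 * c⌉ : ℤ) : ℝ) := Int.le_ceil _
        have h5 : 2 * c * ((s : ℝ) + 1) ≤ ((⌈2 * c⌉ : ℤ) : ℝ) * (s + 1) :=
          mul_le_mul_of_nonneg_right h4 (by positivity)
        linarith
      exact_mod_cast h2
    · rw [mem_W_xx]
      exact ⟨h, S.degree_h, by rw [sub_self]; exact I.zero_mem⟩
    · intro h0
      exact S.not_mem (Ideal.Quotient.eq_zero_iff_mem.mp h0)
    · have h1 : Ideal.span {Ideal.Quotient.mk I h} =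
          (I ⊔ Ideal.span {h}).map (Ideal.Quotient.mk I) := by
        rw [Ideal.map_sup, Ideal.map_quotient_self, bot_sup_eq, Ideal.map_span,
          Set.image_singleton]
      rw [h1]
      have h2 := S.prime_h
      exact Ideal.map_isPrime_of_surjective Ideal.Quotient.mk_surjective (by
        rw [Ideal.mk_ker]
        exact le_sup_left)
    · obtain ⟨s0, hs0⟩ := S.sat
      refine ⟨s0, fun s hs F hF => ?_⟩
      obtain ⟨f, rfl⟩ := Ideal.Quotient.mk_surjective F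
      rw [← map_mul, mem_W_xx] at hF
      obtain ⟨g, hg, hgI⟩ := hF
      rw [mem_W_xx]
      exact hs0 s hs f g hg hgI
    · rw [hε]
      exact hmem h (by simp)
    · rw [hε]
      exact hmem v (by simp)
    · rw [hker]
      have h1 : (ptId z).map (Ideal.Quotient.mk I) =
          (I ⊔ Ideal.span {h, v} ⊔ ptId z ^ 2).map (Ideal.Quotient.mk I) := by
        rw [← S.coord]
      conv_lhs => rw [h1]
      rw [Ideal.map_sup, Ideal.map_sup, Ideal.map_quotient_self, bot_sup_eq, Ideal.map_pow,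
        Ideal.map_span, Set.image_pair]
  obtain ⟨T, h1, h2, h3⟩ := main_of hN Sf hB hr hw
  refine ⟨T, h1, ?_, ?_⟩
  · intro g hg
    obtain ⟨p, hp, hpg⟩ := h2 g hg
    exact ⟨p, fun i => (onU_xx I).mp (hp i), hpg⟩
  · intro p hp hT P hP hPm hIP μ hμ e c hh
    have hprime : (P.map (Ideal.Quotient.mk I)).IsPrime :=
      Ideal.map_isPrime_of_surjective Ideal.Quotient.mk_surjective (by
        rw [Ideal.mk_ker]
        exact hIP)
    have hcomap : (P.map (Ideal.Quotient.mk I)).comap (Ideal.Quotient.mk I) = P := by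
      ext f
      rw [Ideal.mem_comap, Ideal.mem_quotient_iff_mem hIP]
    refine h3 p (fun i => (onU_xx I).mpr (hp i)) hT (P.map (Ideal.Quotient.mk I)) hprime ?_ μ ?_ e c ?_
    · intro hmax
      apply hPm
      rw [← hcomap]
      exact Ideal.comap_isMaximal_of_surjective _ Ideal.Quotient.mk_surjective
    · intro i
      rw [mp_xx, ← Ideal.map_pow]
      have h4 := Ideal.map_mono (f := Ideal.Quotient.mk I) (hμ i)
      rw [Ideal.map_sup, Ideal.map_quotient_self, bot_sup_eq] at h4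
      exact h4
    · intro s
      rw [hilb_xx I hIP]
      exact hh s


/-- **Main theorem**: the error is exponentially small. -/
theorem main_poly_exp {n N r : ℕ} {I : Ideal (MvPolynomial (Fin n) ℂ)}
    {h v : MvPolynomial (Fin n) ℂ} {z : Fin n → ℂ} (hN : 0 < N) (hr : 192 * N ≤ r)
    (S : IsSurface I N h v z) :
    ∃ T : Set (MvPolynomial (Fin r × Fin n) ℂ), T.Countable ∧
      (∀ g ∈ T, ∃ p : Fin r → Fin n → ℂ, (∀ i, I ≤ ptId (p i)) ∧
        eval (fun il => p il.1 il.2) g ≠ 0) ∧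
      ∀ p : Fin r → Fin n → ℂ, (∀ i, I ≤ ptId (p i)) →
        (∀ g ∈ T, eval (fun il => p il.1 il.2) g ≠ 0) →
        ∀ P : Ideal (MvPolynomial (Fin n) ℂ), P.IsPrime → ¬ P.IsMaximal → I ≤ P →
          ∀ μ : Fin r → ℕ, (∀ i, P ≤ I ⊔ ptId (p i) ^ μ i) →
          ∀ e c : ℝ, (∀ s, (hf P s : ℝ) ≤ e * s + c) →
            N * (∑ i, (μ i : ℝ)) ^ 2 ≤ (1 + Real.exp (-(3 * r / 40))) * r * e ^ 2 :=
  main_poly_of (by
    have := Real.exp_pos (-(3 * (r : ℝ) / 40))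
    linarith) (by omega) (weighted_exp N r hN hr) hN S

end Pool.Agent.helper89.Exp
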