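import Pool.Agent.helper89.Exp.Collide16
import Pool.Agent.helper25.SC.MIN

set_option autoImplicit false

/-!
# The induction over the number of collisions
-/

namespace Pool.Agent.helper89.Exp

open MvPolynomial Pool.Agent.helper5.NBS Pool.Agent.helper89.Segre Pool.Agent.helper22.SC

/-- the weighted bound at very general points -/
def NefW (N r : ℕ) {h : ℕ} (w : Fin h → ℕ) (z : ℝ) : Prop :=
  ∃ T : Set (PtRing h), T.Countable ∧ (∀ Q ∈ T, Q ≠ 0) ∧ ∀ p : Fin h → Fin 2 → ℂ,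
    (∀ Q ∈ T, evP p Q ≠ 0) → ∀ F : R2, F ≠ 0 →
      N * z * (∑ i, (w i : ℝ) * mult (p i) F) ^ 2 ≤ (z + 1) * r * (wdeg N F : ℝ) ^ 2

/-- the weights -/
def wj (K j : ℕ) : Fin (K + j) → ℕ := fun i => if i.val < K then 1 else 4

lemma sum_wj {K j : ℕ} (f : Fin (K + j) → ℝ) : ∑ i, (wj K j i : ℝ) * f i =
    ∑ i : Fin K, f (Fin.castAdd j i) + 4 * ∑ i : Fin j, f (Fin.natAdd K i) := by
  rw [Fin.sum_univ_add, Finset.mul_sum]
  congr 1
  · apply Finset.sum_congr rfl
    intro i _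
    simp [wj]
  · apply Finset.sum_congr rfl
    intro i _
    simp [wj]

lemma sum_wj_sq (K j : ℕ) : ∑ i, wj K j i ^ 2 = K + 16 * j := by
  rw [Fin.sum_univ_add]
  simp [wj]
  ring

/-- the square root form -/
lemma sq_form {N r : ℕ} (hN : 0 < N) {z : ℝ} (hz : 0 < z) {S D : ℝ} (hS : 0 ≤ S) (hD : 0 ≤ D) :
    N * z * S ^ 2 ≤ (z + 1) * r * D ^ 2 ↔ √(N * z) * S ≤ √((z + 1) * r) * D := by
  have hN' : (0 : ℝ) < N := by exact_mod_cast hN
  have h1 : (√(N * z) * S) ^ 2 = N * z * S ^ 2 := by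
    rw [mul_pow, Real.sq_sqrt (by positivity)]
  have h2 : (√((z + 1) * r) * D) ^ 2 = (z + 1) * r * D ^ 2 := by
    rw [mul_pow, Real.sq_sqrt (by positivity)]
  rw [← h1, ← h2]
  constructor
  · intro h
    exact le_of_sq_le_sq h (by positivity)
  · intro h
    exact pow_le_pow_left₀ (by positivity) h 2

/-- irreducible curves suffice -/
lemma all_of_irred {N r h : ℕ} (hN : 0 < N) {w : Fin h → ℕ} {z : ℝ} (hz : 0 < z)
    (p : Fin h → Fin 2 → ℂ)
    (H : ∀ F : R2, Irreducible F →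
      N * z * (∑ i, (w i : ℝ) * mult (p i) F) ^ 2 ≤ (z + 1) * r * (wdeg N F : ℝ) ^ 2)
    (F : R2) : F ≠ 0 →
      N * z * (∑ i, (w i : ℝ) * mult (p i) F) ^ 2 ≤ (z + 1) * r * (wdeg N F : ℝ) ^ 2 := by
  have hnn : ∀ F : R2, 0 ≤ ∑ i, (w i : ℝ) * mult (p i) F :=
    fun F => Finset.sum_nonneg fun i _ => by positivity
  induction F using WfDvdMonoid.induction_on_irreducible with
  | zero => intro h0; exact absurd rfl h0
  | unit u hu =>
    intro _
    have h0 : ∑ i, (w i : ℝ) * mult (p i) u = 0 :=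
      Finset.sum_eq_zero (fun i _ => by rw [mult_unit (p i) hu]; simp)
    rw [h0]
    have h1 : (0 : ℝ) ≤ (z + 1) * r * (wdeg N u : ℝ) ^ 2 := by positivity
    have h2 : (N : ℝ) * z * 0 ^ 2 = 0 := by ring
    rw [h2]
    exact h1
  | mul a i ha hi ih =>
    intro _
    have h1 := (sq_form hN hz (hnn a) (by positivity)).mp (ih ha)
    have h2 := (sq_form hN hz (hnn i) (by positivity)).mp (H i hi)
    rw [sq_form hN hz (hnn _) (by positivity)]
    have h3 : ∑ k, (w k : ℝ) * mult (p k) (i * a) =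
        ∑ k, (w k : ℝ) * mult (p k) i + ∑ k, (w k : ℝ) * mult (p k) a := by
      rw [← Finset.sum_add_distrib]
      apply Finset.sum_congr rfl
      intro k _
      rw [mult_mul hi.ne_zero ha]
      push_cast
      ring
    rw [h3, wdeg_mul N hi.ne_zero ha]
    push_cast
    rw [mul_add, mul_add]
    linarith

/-- the class of points of weight one -/
def clA (K j : ℕ) : Finset (Fin (K + j)) := Finset.univ.filter fun i => i.val < K

lemma mem_clA {K j : ℕ} {i : Fin (K + j)} : i ∈ clA K j ↔ i.val < K := by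
  simp [clA]

lemma card_clA (K j : ℕ) : (clA K j).card = K := by
  have : clA K j = Finset.univ.image (Fin.castAdd j : Fin K → Fin (K + j)) := by
    ext i
    rw [mem_clA, Finset.mem_image]
    constructor
    · intro h
      exact ⟨⟨i.val, h⟩, Finset.mem_univ _, by ext; rfl⟩
    · rintro ⟨a, _, rfl⟩
      simp
  rw [this, Finset.card_image_of_injective _ (Fin.castAdd_injective K j), Finset.card_univ,
    Fintype.card_fin]

lemma wj_le (K j : ℕ) (i : Fin (K + j)) : wj K j i ≤ 4 := by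
  unfold wj
  split_ifs <;> omega

/-- the map which identifies the last sixteen points of weight one -/
def pim (K j : ℕ) : Fin (K + 16 + j) → Fin (K + (j + 1)) := fun i =>
  ⟨if i.val < K then i.val else if i.val < K + 16 then K else i.val - 15, by
    have := i.isLt
    split_ifs <;> omega⟩

/-- the numerical part of the step -/
theorem num_step {N r K : ℕ} {z z' S D : ℝ} (hN : 0 < N) (hK : 1 < K)
    (hz' : 0 < z') (hzz : z' < z) (hS : 0 ≤ S) (hD : 0 < D)
    (viol : (z + 1) * r * D ^ 2 < N * z * S ^ 2)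
    (coll : N * z' * (S + 4) ^ 2 ≤ (z' + 1) * r * D ^ 2)
    (bd : ((K : ℝ) - 1) * D ^ 2 < N * z * (z + 1))
    (hyp : (z + 1) * (z - z') ^ 2 * r ≤ 64 * ((K : ℝ) - 1) * z' ^ 2 * z) : False := by
  have hN' : (0 : ℝ) < N := by exact_mod_cast hN
  have hz : 0 < z := hz'.trans hzz
  have hK' : (0 : ℝ) < (K : ℝ) - 1 := by
    rw [sub_pos]
    exact_mod_cast hK
  -- `a ^ 2 = r D ^ 2 / N`
  set a : ℝ := √(r / N) * D with ha
  have ha0 : 0 ≤ a := by positivity
  have ha2 : N * a ^ 2 = r * D ^ 2 := by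
    rw [ha, mul_pow, Real.sq_sqrt (by positivity)]
    field_simp
  have h1 : √(1 + 1 / z) * a < S := by
    apply lt_of_pow_lt_pow_left₀ 2 hS
    rw [mul_pow, Real.sq_sqrt (by positivity)]
    have : (z + 1) * (N * a ^ 2) < N * z * S ^ 2 := by rw [ha2]; linarith
    have h2 : (1 + 1 / z) * a ^ 2 = (z + 1) * (N * a ^ 2) / (N * z) := by
      field_simp
    rw [h2, div_lt_iff₀ (by positivity)]
    linarith
  have h2 : S + 4 ≤ √(1 + 1 / z') * a := by
    apply le_of_sq_le_sq _ (by positivity)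
    rw [mul_pow, Real.sq_sqrt (by positivity)]
    have : N * z' * (S + 4) ^ 2 ≤ (z' + 1) * (N * a ^ 2) := by rw [ha2]; linarith
    have h2 : (1 + 1 / z') * a ^ 2 = (z' + 1) * (N * a ^ 2) / (N * z') := by
      field_simp
    rw [h2, le_div_iff₀ (by positivity)]
    linarith
  have h3 : √(1 + 1 / z') - √(1 + 1 / z) ≤ (1 / z' - 1 / z) / 2 := by
    have e1 : √(1 + 1 / z') ^ 2 = 1 + 1 / z' := Real.sq_sqrt (by positivity)
    have e2 : √(1 + 1 / z) ^ 2 = 1 + 1 / z := Real.sq_sqrt (by positivity)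
    have e3 : 1 ≤ √(1 + 1 / z') := Real.one_le_sqrt.mpr (by
      have : 0 < 1 / z' := by positivity
      linarith)
    have e4 : 1 ≤ √(1 + 1 / z) := Real.one_le_sqrt.mpr (by
      have : 0 < 1 / z := by positivity
      linarith)
    have e5 : 1 / z < 1 / z' := one_div_lt_one_div_of_lt hz' hzz
    have e6 : √(1 + 1 / z) ≤ √(1 + 1 / z') := Real.sqrt_le_sqrt (by linarith)
    nlinarith
  have h4 : 4 < (1 / z' - 1 / z) / 2 * a := by
    have := mul_le_mul_of_nonneg_right h3 ha0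
    linarith
  have h5 : 8 * z' * z < (z - z') * a := by
    have : (1 / z' - 1 / z) / 2 * a = (z - z') * a / (2 * z' * z) := by
      field_simp
    rw [this, lt_div_iff₀ (by positivity)] at h4
    linarith
  have h6 : (8 * z' * z) ^ 2 < ((z - z') * a) ^ 2 := pow_lt_pow_left₀ h5 (by positivity) (by norm_num)
  -- combine
  have h7 : N * (8 * z' * z) ^ 2 < (z - z') ^ 2 * (r * D ^ 2) := by
    rw [← ha2]
    have : N * (8 * z' * z) ^ 2 < N * ((z - z') * a) ^ 2 := mul_lt_mul_of_pos_left h6 hN'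
    calc N * (8 * z' * z) ^ 2 < N * ((z - z') * a) ^ 2 := this
      _ = _ := by ring
  have h8 : ((K : ℝ) - 1) * (N * (8 * z' * z) ^ 2) < (z - z') ^ 2 * r * (((K : ℝ) - 1) * D ^ 2) := by
    have := mul_lt_mul_of_pos_left h7 hK'
    calc _ < ((K : ℝ) - 1) * ((z - z') ^ 2 * (r * D ^ 2)) := this
      _ = _ := by ring
  have h9 : (z - z') ^ 2 * r * (((K : ℝ) - 1) * D ^ 2) ≤ (z - z') ^ 2 * r * (N * z * (z + 1)) :=
    mul_le_mul_of_nonneg_left bd.le (by positivity)
  have h10 : (z - z') ^ 2 * r * (N * z * (z + 1)) ≤ N * z * (64 * ((K : ℝ) - 1) * z' ^ 2 * z) := by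
    have := mul_le_mul_of_nonneg_left hyp (by positivity : 0 ≤ N * z)
    linarith
  have h11 : ((K : ℝ) - 1) * (N * (8 * z' * z) ^ 2) = N * z * (64 * ((K : ℝ) - 1) * z' ^ 2 * z) := by
    ring
  linarith

end Pool.Agent.helper89.Exp
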